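import Pool.Agent.H53.UK.Targets

/-!
Row INU of uk_modules (MP_c62aed_lc): the cube matters only on its set of variables (helper46).
-/

set_option autoImplicit false

namespace Pool.Agent.H46.UK

open Pool.Agent.H53.UK

theorem pf_INU : T_INU := by
  intro n k ι H d s₀ A x y hxy
  have h1 : ∀ c, InU H (A, x) c ↔ InU H (A, y) c := by
    intro c
    constructor
    · rintro ⟨h1, h2⟩
      refine ⟨h1, fun i hi => ?_⟩
      have h3 : x i = y i := hxy i (h1 hi)
      show y i ≠ (H c).2 i
      rw [← h3]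
      exact h2 i hi
    · rintro ⟨h1, h2⟩
      refine ⟨h1, fun i hi => ?_⟩
      have h3 : x i = y i := hxy i (h1 hi)
      show x i ≠ (H c).2 i
      rw [h3]
      exact h2 i hi
  have h2 : cnU H (A, x) = cnU H (A, y) := Nat.card_congr (Equiv.subtypeEquivRight h1)
  refine ⟨h1, h2, fun Q hQ => ⟨hQ.ne,
    fun z hz i hi => (hQ.inc z hz i hi).trans (hxy i hi), fun B z hB => ?_⟩⟩
  have h3 : wtU H d s₀ (A, y) = wtU H d s₀ (A, x) := by
    unfold wtU
    rw [h2]
  rw [h3]
  exact hQ.spr B z hB

end Pool.Agent.H46.UK
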